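import Pool.Agent.K1H72.CD.All

set_option autoImplicit false

/-!
# Infinite moments of the chemical distance between neighbours in critical percolation

Let `U m` be the event that `(0,0)` and `(1,0)` are connected by open edges of the box `[-m,m]²`
other than the edge `e` between them, `u m` its probability, and `π m` the probability of four arms
from `e` to the boundary of the box.  By planar duality `U m`, the four-arm event and the dual
event (a closed dual path around one end of `e` in the box) are disjoint, and the last one has
probability at least `u (m - 2)` by self-duality, so that `u (m - 2) ≤ 1/2 - π m / 2`.  Since there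
is no infinite cluster, `u n` tends to at least `1/2`.  Hence with probability at least `π m / 8` the
edge `e` is closed and its ends are connected, but not within the box, and then the chemical distance
is at least `m - 2`.  The lower bound `c m ^ (-5/4)` for `π m` is in the library
(`Pool.Agent.H988R5`).
-/

namespace Pool.Agent.Results.MP_a739c9_pr.ChemicalMoments

open MeasureTheory H974

/-- the event that `(0,0)` and `(1,0)` are connected by open edges -/
def Conn : Set (sqLattice.edgeSet → Bool) := {ω | (openGraph ω).Reachable (0, 0) (1, 0)}

/-- the chemical distance: the least number of edges in an open path from `(0,0)` to `(1,0)` -/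
noncomputable def N (ω : sqLattice.edgeSet → Bool) : ℕ := (openGraph ω).dist (0, 0) (1, 0)

/-- **Theorem.** In critical bond percolation on the square lattice all moments of order at least
`5/4` of the chemical distance between two neighbours, given that they are connected, are infinite;
more precisely the probability that the distance is finite and at least `m` is at least
`c m ^ (-5/4)`. -/
theorem result :
    (∀ s : ℝ, 5 / 4 ≤ s →
      ∫⁻ ω, (N ω : ENNReal) ^ s ∂(ProbabilityTheory.cond (bondLaw hlf) Conn) = ⊤) ∧
    ∃ c : ℝ, 0 < c ∧ ∀ m : ℕ, 1 ≤ m →
      c * (m : ℝ) ^ (-(5/4) : ℝ) ≤ (bondLaw hlf).real {ω | ω ∈ Conn ∧ m ≤ N ω} := by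
  obtain ⟨h1, h2⟩ := Pool.Agent.K1H72.CD.all
  refine ⟨fun s hs => ?_, h1⟩
  have h3 : ∫⁻ ω in Conn, (N ω : ENNReal) ^ s ∂(bondLaw hlf) = ⊤ := h2 s hs
  unfold ProbabilityTheory.cond
  rw [lintegral_smul_measure, h3, smul_eq_mul]
  exact ENNReal.mul_top (ENNReal.inv_ne_zero.2 (measure_ne_top _ _))

end Pool.Agent.Results.MP_a739c9_pr.ChemicalMoments
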